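import Pool.Agent.Helper74.DI.StM

/-!
# Project DI (MP_26f0da_lc), module RND: one round of the machine
-/

set_option autoImplicit false

namespace Pool.Agent.Helper9.DI

open Pool.Agent.Helper74 Pool.Agent.Helper74.DI

/-- small numbers which vanish modulo `μ + 1` -/
private theorem rnd_zero {μ a : ℕ} {x : ℤ} (ha : a ≤ μ)
    (h : (a : ZMod (μ + 1)) = (x : ZMod (μ + 1))) : a = 0 ↔ ((μ + 1 : ℕ) : ℤ) ∣ x := by
  rw [← ZMod.intCast_zmod_eq_zero_iff_dvd x (μ + 1), ← h, ZMod.natCast_eq_zero_iff]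
  constructor
  · rintro rfl
    exact dvd_zero _
  · intro h1
    exact Nat.eq_zero_of_dvd_of_lt h1 (by omega)

private theorem rnd_inc (μ : ℕ) (o : Bool → Bool) :
    (∀ r, (inc μ true o (fun _ => 0)).2 r ≤ μ) ∧
    ((inc μ true o (fun _ => 0)).2 true : ZMod (μ + 1)) = ((1 : ℤ) : ZMod (μ + 1)) ∧
    ((inc μ true o (fun _ => 0)).2 false : ZMod (μ + 1)) = ((0 : ℤ) : ZMod (μ + 1)) := by
  by_cases h : 0 = μ
  · subst h
    have _ : Subsingleton (ZMod (0 + 1)) := (inferInstance : Subsingleton (ZMod 1))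
    refine ⟨?_, Subsingleton.elim _ _, ?_⟩
    · intro r
      cases r <;> simp [inc, up]
    · simp [inc, up]
  · refine ⟨?_, ?_, ?_⟩
    · intro r
      cases r
      · simp [inc, up, h]
      · simp only [inc, up, h, if_false, if_true]
        omega
    · simp [inc, up, h]
    · simp [inc, up, h]

private theorem rnd_dec (μ : ℕ) (o : Bool → Bool) (v : Bool → ℕ) (hv : ∀ r, v r ≤ μ) (P : ℤ)
    (hP : (v true : ZMod (μ + 1)) = (P : ZMod (μ + 1))) :
    (∀ r, (dec μ true o v).2 r ≤ μ) ∧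
    ((dec μ true o v).2 true : ZMod (μ + 1)) = ((P - 1 : ℤ) : ZMod (μ + 1)) ∧
    (dec μ true o v).2 false = v false := by
  by_cases h : v true = 0
  · refine ⟨?_, ?_, ?_⟩
    · intro r
      cases r
      · simpa [dec, up, h] using hv false
      · simp [dec, up, h]
    · have h1 : ((μ + 1 : ℕ) : ZMod (μ + 1)) = 0 := ZMod.natCast_self _
      rw [Nat.cast_add, Nat.cast_one] at h1
      rw [h, Nat.cast_zero] at hP
      simp only [dec, up, h, if_true]
      rw [Int.cast_sub, ← hP, Int.cast_one]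
      linear_combination h1
    · simp [dec, up, h]
  · refine ⟨?_, ?_, ?_⟩
    · intro r
      cases r
      · simpa [dec, up, h] using hv false
      · simp only [dec, up, h, if_false, if_true]
        exact (Nat.sub_le _ _).trans (hv true)
    · simp only [dec, up, h, if_false, if_true]
      rw [Nat.cast_sub (Nat.one_le_iff_ne_zero.2 h), hP]
      push_cast
      ring
    · simp [dec, up, h]

theorem hRND (hSTA : StSTA) (hSCN : StSCN) : StRND := by
  intro w μ hμ e o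
  have h0 := (hSTA w e o 0 (fun _ => 0) 0 μ (fun _ => Nat.zero_le _) (Nat.zero_le _) hμ).1
  obtain ⟨hv1, ht1, hf1⟩ := rnd_inc μ o
  obtain ⟨e', o', v', hr1, hv', ht', hf'⟩ := hSCN w μ hμ w [] rfl true (inc μ true o (fun _ => 0)).1
    (inc μ true o (fun _ => 0)).2 (1, 0) hv1 ht1 hf1
  have h2 := (hSTA w e' o' (w.length + 1) v' 0 μ hv' (Nat.zero_le _) hμ).2.1
  obtain ⟨hv2, ht2, hf2⟩ := rnd_dec μ o' v' hv' _ ht'
  rw [← hf2] at hf'
  have hz1 := rnd_zero (hv2 true) ht2
  have hz2 := rnd_zero (hv2 false) hf'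
  set o2 := (dec μ true o' v').1 with ho2
  set v2 := (dec μ true o' v').2 with hv2d
  have hreach : Rch (sth dm w) (cf .rs e o 0 (fun _ => 0) 0 μ)
      (cf .ck2 e' o2 (w.length + 1) v2 0 μ) :=
    rch_head _ _ _ _ h0 (rch_trans _ _ _ _ hr1 (rch_step _ _ _ h2))
  obtain ⟨-, -, h3, h4, -, -⟩ := hSTA w e' o2 (w.length + 1) v2 0 μ hv2 (Nat.zero_le _) hμ
  constructor
  · rintro ⟨hP, hQ⟩
    have e1 := hz1.2 hP
    have e2 := hz2.2 hQ
    have hv0 : v2 = fun _ => 0 := by
      funext r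
      cases r
      · exact e2
      · exact e1
    refine ⟨e', o2, ?_⟩
    have hrw : ∀ j, Rch (sth dm w) (cf .rw e' o2 j v2 0 μ) (cf .rw e' o2 0 v2 0 μ) := by
      intro j
      induction j with
      | zero => exact rch_refl _ _
      | succ j ih =>
        exact rch_head _ _ _ _
          (hSTA w e' o2 j v2 0 μ hv2 (Nat.zero_le _) hμ).2.2.2.2.2 ih
    have hnx := (hSTA w e' o2 0 v2 0 μ hv2 (Nat.zero_le _) hμ).2.2.2.2.1
    have hfin : Rch (sth dm w) (cf .rs e o 0 (fun _ => 0) 0 μ) (cf .nx e' o2 0 v2 0 μ) :=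
      rch_trans _ _ _ _ hreach (rch_head _ _ _ _ (h3 e1 e2)
        (rch_trans _ _ _ _ (hrw _) (rch_step _ _ _ hnx)))
    rw [hv0] at hfin
    exact hfin
  · intro hn
    have hne : ¬ (v2 true = 0 ∧ v2 false = 0) := fun h => hn ⟨hz1.1 h.1, hz2.1 h.2⟩
    exact ⟨_, rch_trans _ _ _ _ hreach (rch_step _ _ _ (h4 hne)), rfl⟩

end Pool.Agent.Helper9.DI
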